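import Mathlib

namespace Pool.Agent.Results.MP_f2d551_nt.AllButFermat

/-- `n` is a mu-Sondow number: n is positive and, for every prime p dividing n and the
exponent s with p^s exactly dividing n, p^s divides n/p + mu. -/
def IsSondow (mu : ℤ) (n : ℕ) : Prop :=
  0 < n ∧ ∀ p s : ℕ, p.Prime → p ∣ n → p ^ s ∣ n → ¬ p ^ (s + 1) ∣ n →
    ((p ^ s : ℕ) : ℤ) ∣ ((n / p : ℕ) : ℤ) + mu

/-- The exponents k for which F_k = 2^(2^k)+1 is not handled: k is at least 5 and k avoids ten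
explicit residue classes. -/
def Bad (k : ℕ) : Prop :=
  5 ≤ k ∧ k % 3 ≠ 0 ∧ k % 10 ≠ 3 ∧ k % 12 ≠ 4 ∧ k % 20 ≠ 4 ∧ k % 24 ≠ 5 ∧ k % 24 ≠ 10 ∧
    k % 36 ≠ 1 ∧ k % 36 ≠ 14 ∧ k % 60 ≠ 29 ∧ k % 60 ≠ 34

lemma sondow_prime {mu : ℤ} {p : ℕ} (hp : p.Prime) (h : (p : ℤ) ∣ mu + 1) : IsSondow mu p := by
  refine ⟨hp.pos, ?_⟩
  intro q s hq hqp hs hs1
  have hqp' : q = p := (Nat.prime_dvd_prime_iff_eq hq hp).1 hqp
  subst hqp'
  have hs' : s = 1 := by
    have h1 : s ≤ 1 := by
      by_contra hc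
      have : q ^ 2 ∣ q := (pow_dvd_pow q (by omega : 2 ≤ s)).trans hs
      have h2 := Nat.le_of_dvd hq.pos this
      have h3 := hq.two_le
      nlinarith
    have h2 : s ≠ 0 := by
      rintro rfl
      exact hs1 (by simp)
    omega
  subst hs'
  rw [Nat.div_self hq.pos]
  push_cast
  rw [pow_one, add_comm]
  exact h

/-- Odd part at least three: the power of two 2^(v+1) works. -/
lemma sondow_two (v w : ℕ) (hv : 1 ≤ v) (hw : w % 2 = 1) :
    IsSondow ((2 ^ v * w : ℕ) : ℤ) (2 ^ (v + 1)) := by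
  refine ⟨by positivity, ?_⟩
  intro q s hq hqn hs hs1
  have hq2 : q = 2 := (Nat.prime_dvd_prime_iff_eq hq Nat.prime_two).1 (hq.dvd_of_dvd_pow hqn)
  subst hq2
  have h1 : s ≤ v + 1 := (Nat.pow_dvd_pow_iff_le_right (by norm_num)).1 hs
  have h2 : ¬ (s + 1 ≤ v + 1) := fun h => hs1 (pow_dvd_pow 2 h)
  have h3 : s = v + 1 := by omega
  subst h3
  have h4 : 2 ^ (v + 1) / 2 = 2 ^ v := by
    rw [pow_succ]; simp
  rw [h4]
  obtain ⟨t, ht⟩ : ∃ t, w = 2 * t + 1 := ⟨w / 2, by omega⟩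
  refine ⟨((t + 1 : ℕ) : ℤ), ?_⟩
  subst ht
  push_cast
  ring

/-- Squarefree numbers with an explicit list of primes. -/
lemma sondow_list (mu : ℤ) (n : ℕ) (l : List ℕ) (hn : n = l.prod) (hpos : 0 < n)
    (hl : ∀ p ∈ l, p.Prime ∧ ¬ p ^ 2 ∣ n)
    (hd : ∀ p ∈ l, (p : ℤ) ∣ ((n / p : ℕ) : ℤ) + mu) : IsSondow mu n := by
  refine ⟨hpos, ?_⟩
  intro q s hq hqn hs hs1
  have hmem : q ∈ l := by
    rw [hn] at hqn
    obtain ⟨a, ha, hqa⟩ := (Prime.dvd_prod_iff hq.prime).1 hqn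
    have := (Nat.prime_dvd_prime_iff_eq hq (hl a ha).1).1 hqa
    rw [this]; exact ha
  have h1 : s ≤ 1 := by
    by_contra hc
    exact (hl q hmem).2 ((pow_dvd_pow q (by omega : 2 ≤ s)).trans hs)
  have h2 : s ≠ 0 := by
    rintro rfl
    exact hs1 (by simpa using hqn)
  have h3 : s = 1 := by omega
  subst h3
  rw [pow_one]
  exact hd q hmem

/-- Reduction of 2^(2^k) modulo n along a residue class of k. -/
lemma pow_pow_mod (n M L r k : ℕ) (hk : r ≤ k) (hkr : k % L = r % L)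
    (hM : 2 ^ (r + L) % M = 2 ^ r % M) (hn : 2 ^ M % n = 1 % n) :
    2 ^ (2 ^ k) % n = 2 ^ (2 ^ r % M) % n := by
  obtain ⟨j, hj⟩ : ∃ j, k = r + L * j := by
    have h : L ∣ k - r := (Nat.modEq_iff_dvd' hk).1 hkr.symm
    obtain ⟨j, hj⟩ := h
    exact ⟨j, by omega⟩
  have h1 : 2 ^ k % M = 2 ^ r % M := by
    subst hj
    clear hkr hk
    induction j with
    | zero => simp
    | succ j ih =>
      have e1 : 2 ^ (r + L * (j + 1)) = 2 ^ (r + L * j) * 2 ^ L := by
        rw [← pow_add]; ring_nf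
      rw [e1, Nat.mul_mod, ih, ← Nat.mul_mod, ← pow_add, hM]
  have h2 : 2 ^ k = 2 ^ k % M + M * (2 ^ k / M) := (Nat.mod_add_div _ _).symm
  have h3 : (2 ^ M) ^ (2 ^ k / M) % n = 1 % n := by
    rw [Nat.pow_mod, hn, ← Nat.pow_mod, one_pow]
  calc 2 ^ (2 ^ k) % n = 2 ^ (2 ^ k % M + M * (2 ^ k / M)) % n := by rw [← h2]
    _ = (2 ^ (2 ^ k % M) * (2 ^ M) ^ (2 ^ k / M)) % n := by rw [pow_add, pow_mul]
    _ = 2 ^ (2 ^ k % M) % n := by
      rw [Nat.mul_mod, h3, ← Nat.mul_mod, mul_one]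
    _ = 2 ^ (2 ^ r % M) % n := by rw [h1]

lemma sondow_class (n M L r k c : ℕ) (l : List ℕ) (hk : r ≤ k) (hkr : k % L = r % L)
    (hM : 2 ^ (r + L) % M = 2 ^ r % M) (hn : 2 ^ M % n = 1 % n)
    (hc : 2 ^ (2 ^ r % M) % n = c)
    (hp : n = l.prod) (hpos : 0 < n) (hl : ∀ p ∈ l, p.Prime ∧ ¬ p ^ 2 ∣ n)
    (hd : ∀ p ∈ l, p ∣ n / p + c) : IsSondow ((2 ^ (2 ^ k) : ℕ) : ℤ) n := by
  refine sondow_list _ n l hp hpos hl ?_
  intro p hpl
  have h1 := pow_pow_mod n M L r k hk hkr hM hn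
  rw [hc] at h1
  have h2 : p ∣ n := by rw [hp]; exact List.dvd_prod hpl
  have h3 : 2 ^ (2 ^ k) = c + n * (2 ^ (2 ^ k) / n) := by
    rw [← h1]; exact (Nat.mod_add_div _ _).symm
  have h4 : p ∣ n / p + 2 ^ (2 ^ k) := by
    rw [h3, ← add_assoc]
    exact dvd_add (hd p hpl) (Dvd.dvd.mul_right h2 _)
  exact_mod_cast h4

lemma case3 (k : ℕ) (hk : 3 ≤ k) (h : k % 3 = 0) : IsSondow ((2 ^ (2 ^ k) : ℕ) : ℤ) 145 :=
  sondow_class 145 28 3 3 k 111 [5, 29] hk (by simpa using h) (by norm_num) (by norm_num)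
    (by norm_num) (by norm_num) (by norm_num) (by norm_num) (by norm_num)

lemma case10 (k : ℕ) (hk : 13 ≤ k) (h : k % 10 = 3) : IsSondow ((2 ^ (2 ^ k) : ℕ) : ℤ) 34241 :=
  sondow_class 34241 528 10 13 k 33791 [97, 353] hk (by simpa using h) (by norm_num)
    (by decide +kernel) (by decide +kernel) (by norm_num) (by norm_num) (by norm_num)
    (by norm_num)

lemma case12 (k : ℕ) (hk : 4 ≤ k) (h : k % 12 = 4) : IsSondow ((2 ^ (2 ^ k) : ℕ) : ℤ) 627 :=
  sondow_class 627 90 12 4 k 328 [3, 11, 19] hk (by simpa using h) (by norm_num)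
    (by norm_num) (by norm_num) (by norm_num) (by norm_num) (by norm_num)
    (by norm_num)

lemma case20 (k : ℕ) (hk : 4 ≤ k) (h : k % 20 = 4) : IsSondow ((2 ^ (2 ^ k) : ℕ) : ℤ) 1313 :=
  sondow_class 1313 300 20 4 k 1199 [13, 101] hk (by simpa using h) (by norm_num)
    (by decide +kernel) (by decide +kernel) (by norm_num) (by norm_num) (by norm_num)
    (by norm_num)

lemma case24a (k : ℕ) (hk : 5 ≤ k) (h : k % 24 = 5) :
    IsSondow ((2 ^ (2 ^ k) : ℕ) : ℤ) 248127 :=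
  sondow_class 248127 1530 24 5 k 137053 [3, 11, 73, 103] hk (by simpa using h) (by norm_num)
    (by decide +kernel) (by decide +kernel) (by norm_num) (by norm_num) (by norm_num)
    (by norm_num)

lemma case24b (k : ℕ) (hk : 10 ≤ k) (h : k % 24 = 10) :
    IsSondow ((2 ^ (2 ^ k) : ℕ) : ℤ) 429495 :=
  sondow_class 429495 3060 24 10 k 135646 [3, 5, 11, 19, 137] hk (by simpa using h)
    (by norm_num) (by decide +kernel) (by decide +kernel) (by norm_num) (by norm_num)
    (by norm_num) (by norm_num)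

lemma case36a (k : ℕ) (hk : 37 ≤ k) (h : k % 36 = 1) :
    IsSondow ((2 ^ (2 ^ k) : ℕ) : ℤ) 148295 :=
  sondow_class 148295 1332 36 37 k 88981 [5, 7, 19, 223] hk (by simpa using h) (by norm_num)
    (by decide +kernel) (by decide +kernel) (by norm_num) (by norm_num) (by norm_num)
    (by norm_num)

lemma case36b (k : ℕ) (hk : 14 ≤ k) (h : k % 36 = 14) :
    IsSondow ((2 ^ (2 ^ k) : ℕ) : ℤ) 497045 :=
  sondow_class 497045 16568 36 14 k 397631 [5, 99409] hk (by simpa using h) (by norm_num)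
    (by decide +kernel) (by decide +kernel) (by norm_num) (by norm_num) (by norm_num)
    (by norm_num)

lemma case60a (k : ℕ) (hk : 29 ≤ k) (h : k % 60 = 29) :
    IsSondow ((2 ^ (2 ^ k) : ℕ) : ℤ) 352429 :=
  sondow_class 352429 990 60 29 k 252949 [7, 11, 23, 199] hk (by simpa using h) (by norm_num)
    (by decide +kernel) (by decide +kernel) (by norm_num) (by norm_num) (by norm_num)
    (by norm_num)

lemma case60b (k : ℕ) (hk : 34 ≤ k) (h : k % 60 = 34) :
    IsSondow ((2 ^ (2 ^ k) : ℕ) : ℤ) 315509 :=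
  sondow_class 315509 12896 60 34 k 309503 [53, 5953] hk (by simpa using h) (by norm_num)
    (by decide +kernel) (by decide +kernel) (by norm_num) (by norm_num) (by norm_num)
    (by norm_num)

lemma fermat_case (k : ℕ) (hk : 3 ≤ k) (hb : ¬ Bad k) :
    ∃ n : ℕ, 2 ≤ n ∧ n ≤ 2 ^ (2 ^ k) ∧ IsSondow ((2 ^ (2 ^ k) : ℕ) : ℤ) n := by
  have hle : ∀ j : ℕ, j ≤ k → 2 ^ (2 ^ j) ≤ 2 ^ (2 ^ k) := fun j hj =>
    Nat.pow_le_pow_right (by norm_num) (Nat.pow_le_pow_right (by norm_num) hj)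
  have h3 : (256 : ℕ) ≤ 2 ^ (2 ^ k) := by simpa using hle 3 hk
  by_cases c3 : k % 3 = 0
  · exact ⟨145, by norm_num, by omega, case3 k hk c3⟩
  have hk4 : 4 ≤ k := by
    rcases Nat.lt_or_ge k 4 with h | h
    · interval_cases k
      simp at c3
    · exact h
  have h4 : (65536 : ℕ) ≤ 2 ^ (2 ^ k) := by simpa using hle 4 hk4
  by_cases c12 : k % 12 = 4
  · exact ⟨627, by norm_num, by omega, case12 k hk4 c12⟩
  have hk5 : 5 ≤ k := by
    rcases Nat.lt_or_ge k 5 with h | h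
    · interval_cases k
      simp at c12
    · exact h
  have h5 : (4294967296 : ℕ) ≤ 2 ^ (2 ^ k) := by
    have := hle 5 hk5
    norm_num at this ⊢
    exact this
  by_cases c10 : k % 10 = 3
  · exact ⟨34241, by norm_num, by omega, case10 k (by omega) c10⟩
  by_cases c20 : k % 20 = 4
  · exact ⟨1313, by norm_num, by omega, case20 k hk4 c20⟩
  by_cases c24a : k % 24 = 5
  · exact ⟨248127, by norm_num, by omega, case24a k hk5 c24a⟩
  by_cases c24b : k % 24 = 10
  · exact ⟨429495, by norm_num, by omega, case24b k (by omega) c24b⟩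
  by_cases c36a : k % 36 = 1
  · exact ⟨148295, by norm_num, by omega, case36a k (by omega) c36a⟩
  by_cases c36b : k % 36 = 14
  · exact ⟨497045, by norm_num, by omega, case36b k (by omega) c36b⟩
  by_cases c60a : k % 60 = 29
  · exact ⟨352429, by norm_num, by omega, case60a k (by omega) c60a⟩
  by_cases c60b : k % 60 = 34
  · exact ⟨315509, by norm_num, by omega, case60b k (by omega) c60b⟩
  exact absurd ⟨hk5, c3, c10, c12, c20, c24a, c24b, c36a, c36b, c60a, c60b⟩ hb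

/-- Q1 holds for every integer mu outside the listed exceptions, except possibly when
mu + 1 = 2^(2^k) + 1 is a Fermat prime with k at least 5 and k outside ten residue classes. -/
theorem result (mu : ℤ) (h0 : mu ≠ 0) (h1 : mu ≠ 1) (h1' : mu ≠ -1) (h2 : mu ≠ 2)
    (h2' : mu ≠ -2) (h4 : mu ≠ 4) (h16 : mu ≠ 16)
    (hF : ∀ k : ℕ, Bad k → Nat.Prime (2 ^ (2 ^ k) + 1) → mu ≠ 2 ^ (2 ^ k)) :
    ∃ n : ℕ, 2 ≤ n ∧ (n : ℤ) ≤ |mu| ∧ IsSondow mu n := by
  rcases lt_or_ge mu 0 with hneg | hpos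
  · -- negative
    have h3 : mu ≤ -3 := by omega
    have h4 : (mu + 1).natAbs ≠ 1 := by omega
    obtain ⟨p, hp, hpd⟩ := Nat.exists_prime_and_dvd h4
    have hpd' : (p : ℤ) ∣ mu + 1 := Int.natCast_dvd.2 hpd
    refine ⟨p, hp.two_le, ?_, sondow_prime hp hpd'⟩
    have h5 : p ≤ (mu + 1).natAbs := Nat.le_of_dvd (by omega) hpd
    rw [abs_of_neg hneg]
    omega
  · obtain ⟨m, rfl⟩ := Int.eq_ofNat_of_zero_le hpos
    have hm3 : 3 ≤ m := by omega
    have habs : |(m : ℤ)| = m := abs_of_nonneg hpos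
    rw [habs]
    by_cases hpr : Nat.Prime (m + 1)
    · -- m even
      have hme : m % 2 = 0 := by
        rcases hpr.eq_two_or_odd with h | h
        · omega
        · omega
      obtain ⟨v, w, hw, hvw⟩ := Nat.exists_eq_two_pow_mul_odd (n := m) (by omega)
      have hwo : w % 2 = 1 := Nat.odd_iff.1 hw
      have hv : 1 ≤ v := by
        rcases Nat.eq_zero_or_pos v with h | h
        · subst h; simp at hvw; omega
        · exact h
      by_cases hw3 : 3 ≤ w
      · refine ⟨2 ^ (v + 1), ?_, ?_, ?_⟩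
        · calc 2 = 2 ^ 1 := by norm_num
            _ ≤ 2 ^ (v + 1) := Nat.pow_le_pow_right (by norm_num) (by omega)
        · have : 2 ^ (v + 1) ≤ m := by
            rw [hvw, pow_succ]
            exact Nat.mul_le_mul_left _ (by omega)
          exact_mod_cast this
        · rw [hvw]; exact sondow_two v w hv hwo
      · have hw1 : w = 1 := by omega
        subst hw1
        rw [mul_one] at hvw
        have hpow : ∃ k, v = 2 ^ k := by
          rw [hvw] at hpr
          exact Nat.pow_of_pow_add_prime (by norm_num) (by omega) hpr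
        obtain ⟨k, rfl⟩ := hpow
        have hk3 : 3 ≤ k := by
          by_contra hc
          have : k < 3 := by omega
          interval_cases k
          · simp at hvw; omega
          · norm_num at hvw; omega
          · norm_num at hvw; omega
        have hb : ¬ Bad k := by
          intro hb
          refine hF k hb ?_ ?_
          · rw [← hvw]; exact hpr
          · rw [hvw]; push_cast; rfl
        obtain ⟨n, hn2, hnle, hs⟩ := fermat_case k hk3 hb
        refine ⟨n, hn2, ?_, ?_⟩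
        · rw [hvw]; exact_mod_cast hnle
        · rw [hvw]; exact hs
    · -- composite
      have h5 : m + 1 ≠ 1 := by omega
      refine ⟨(m + 1).minFac, (Nat.minFac_prime h5).two_le, ?_, ?_⟩
      · have h6 : (m + 1).minFac ≤ m + 1 := Nat.minFac_le (by omega)
        have h7 : (m + 1).minFac ≠ m + 1 := fun h => hpr (by
          rw [← h]; exact Nat.minFac_prime h5)
        have : (m + 1).minFac ≤ m := by omega
        exact_mod_cast this
      · refine sondow_prime (Nat.minFac_prime h5) ?_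
        have := Nat.minFac_dvd (m + 1)
        exact_mod_cast this

end Pool.Agent.Results.MP_f2d551_nt.AllButFermat
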